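import Mathlib

/-!
# Diophantine functions: binomial coefficients, factorials, products

Everything is a composition of the Diophantine operations of Mathlib
(`+`, `*`, `/`, `%`, `-`, `^`).
-/

namespace Pool.Agent.H82.MRDP

open Finset Dioph

/-- Extraction of a digit in base `u`. -/
theorem digit (u : ℕ) (hu : 0 < u) : ∀ (k N : ℕ) (c : ℕ → ℕ), (∀ i, c i < u) → k < N →
    (∑ i ∈ range N, c i * u ^ i) / u ^ k % u = c k := by
  intro k
  induction k with
  | zero =>
    intro N c hc hk
    obtain ⟨M, rfl⟩ : ∃ M, N = M + 1 := ⟨N - 1, by omega⟩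
    rw [Finset.sum_range_succ']
    have h1 : ∑ i ∈ range M, c (i + 1) * u ^ (i + 1) = u * ∑ i ∈ range M, c (i + 1) * u ^ i := by
      rw [Finset.mul_sum]
      exact Finset.sum_congr rfl fun i _ => by ring
    rw [h1]
    simp only [pow_zero, mul_one, Nat.div_one]
    rw [Nat.mul_add_mod, Nat.mod_eq_of_lt (hc 0)]
  | succ k ih =>
    intro N c hc hk
    obtain ⟨M, rfl⟩ : ∃ M, N = M + 1 := ⟨N - 1, by omega⟩
    rw [Finset.sum_range_succ']
    have h1 : ∑ i ∈ range M, c (i + 1) * u ^ (i + 1) = u * ∑ i ∈ range M, c (i + 1) * u ^ i := by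
      rw [Finset.mul_sum]
      exact Finset.sum_congr rfl fun i _ => by ring
    rw [h1, pow_zero, mul_one, pow_succ', ← Nat.div_div_eq_div_mul, Nat.mul_add_div hu,
      Nat.div_eq_of_lt (hc 0), add_zero]
    exact ih M (fun i => c (i + 1)) (fun i => hc (i + 1)) (by omega)

theorem choose_eq (n k : ℕ) :
    ((2 ^ n + 1 + 1) ^ n / (2 ^ n + 1) ^ k) % (2 ^ n + 1) = n.choose k := by
  have h := digit (2 ^ n + 1) (Nat.succ_pos _) k (n + k + 1) (fun i => n.choose i)
    (fun i => by
      have := Nat.choose_le_two_pow n i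
      omega) (by omega)
  have h2 : ∑ i ∈ range (n + k + 1), n.choose i * (2 ^ n + 1) ^ i = (2 ^ n + 1 + 1) ^ n := by
    rw [add_pow]
    rw [← Finset.sum_subset (Finset.range_subset_range.2 (by omega : n + 1 ≤ n + k + 1))]
    · exact Finset.sum_congr rfl fun i _ => by simp [mul_comm]
    · intro i _ hi
      rw [Nat.choose_eq_zero_of_lt (by simpa using hi), zero_mul]
  rw [h2] at h
  exact h

theorem pow_bound (s m : ℕ) : ∀ n : ℕ, (s + m) ^ (n + 1) ≤ s ^ (n + 1) + (n + 1) * m * (s + m) ^ n
  | 0 => by simp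
  | n + 1 => by
    have ih := pow_bound s m n
    calc (s + m) ^ (n + 1 + 1) = s * (s + m) ^ (n + 1) + m * (s + m) ^ (n + 1) := by ring
      _ ≤ s * (s ^ (n + 1) + (n + 1) * m * (s + m) ^ n) + m * (s + m) ^ (n + 1) := by gcongr
      _ = s ^ (n + 1 + 1) + (n + 1) * m * (s * (s + m) ^ n) + m * (s + m) ^ (n + 1) := by ring
      _ ≤ s ^ (n + 1 + 1) + (n + 1) * m * ((s + m) * (s + m) ^ n) + m * (s + m) ^ (n + 1) := by
          gcongr; omega
      _ = s ^ (n + 1 + 1) + (n + 1 + 1) * m * (s + m) ^ (n + 1) := by ring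

theorem factorial_eq (n : ℕ) :
    (2 * (n + 1) ^ (n + 2)) ^ n / (2 * (n + 1) ^ (n + 2)).choose n = n.factorial := by
  rcases n with _ | m
  · simp
  set n := m + 1 with hn
  set r := 2 * (n + 1) ^ (n + 2) with hr
  have hfact : n.factorial ≤ (n + 1) ^ n := by
    calc n.factorial ≤ n ^ n := Nat.factorial_le_pow n
      _ ≤ (n + 1) ^ n := Nat.pow_le_pow_left (by omega) n
  have hone : 1 ≤ (n + 1) ^ n := Nat.one_le_pow _ _ (by omega)
  have hbig : (n.factorial + 1) * (n * n) < r := by
    calc (n.factorial + 1) * (n * n) ≤ (2 * (n + 1) ^ n) * (n * n) := by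
          gcongr; omega
      _ < (2 * (n + 1) ^ n) * ((n + 1) * (n + 1)) := by
          have : n * n < (n + 1) * (n + 1) := by nlinarith
          exact (Nat.mul_lt_mul_left (by positivity)).2 this
      _ = r := by rw [hr]; ring
  have hnr : n ≤ r := by
    have : n ≤ n * n := Nat.le_mul_self n
    nlinarith [Nat.factorial_pos n]
  obtain ⟨s, hs⟩ : ∃ s, r = s + n := ⟨r - n, by omega⟩
  have hD : s ^ n ≤ r.descFactorial n := by
    calc s ^ n ≤ (r + 1 - n) ^ n := Nat.pow_le_pow_left (by omega) n
      _ ≤ r.descFactorial n := Nat.pow_sub_le_descFactorial r n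
  have hpb : r ^ n ≤ s ^ n + n * n * r ^ m := by
    have := pow_bound s n m
    rw [← hs] at this
    simpa [hn] using this
  have hDC : r.descFactorial n = n.factorial * r.choose n :=
    Nat.descFactorial_eq_factorial_mul_choose r n
  have hrm : 0 < r ^ m := by
    have : 0 < r := by omega
    positivity
  apply Nat.div_eq_of_lt_le
  · rw [← hDC]
    exact Nat.descFactorial_le_pow r n
  · have key : n.factorial * r ^ n < n.factorial * ((n.factorial + 1) * r.choose n) := by
      have e1 : n.factorial * ((n.factorial + 1) * r.choose n)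
          = (n.factorial + 1) * r.descFactorial n := by rw [hDC]; ring
      rw [e1]
      have e2 : (n.factorial + 1) * (n * n) * r ^ m < r * r ^ m :=
        (Nat.mul_lt_mul_right hrm).2 hbig
      have e3 : r * r ^ m = r ^ n := by rw [hn, pow_succ']
      nlinarith [Nat.factorial_pos n]
    exact lt_of_mul_lt_mul_left key (Nat.zero_le _)

/-- The product `∏_{k < b} (1 + (k+1) t)` as a composition of Diophantine operations. -/
theorem prod_eq (b t : ℕ) :
    (t ^ b * (b.factorial * ((t * (1 + b * t) ^ b + 1 - (1 + b * t) ^ b) + b).choose b))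
        % (t * (1 + b * t) ^ b + 1) + (1 - t)
      = ∏ k ∈ range b, (1 + (k + 1) * t) := by
  rcases Nat.eq_zero_or_pos t with rfl | ht
  · simp [Nat.mod_one]
  set A := (1 + b * t) ^ b with hA
  have hAt : A ≤ t * A := Nat.le_mul_of_pos_left A ht
  set q := t * A + 1 - A with hq
  have h1 : b.factorial * (q + b).choose b = ∏ k ∈ range b, (q + 1 + k) := by
    rw [← Nat.ascFactorial_eq_factorial_mul_choose, Nat.ascFactorial_eq_prod_range]
  have h2 : t ^ b * ∏ k ∈ range b, (q + 1 + k) = ∏ k ∈ range b, (t * (q + 1 + k)) := by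
    rw [Finset.prod_mul_distrib, Finset.prod_const, card_range]
  have hqt : t * q ≡ 1 [MOD t * A + 1] := by
    have e : t * q + t * A = t * (t * A + 1) := by
      rw [hq, ← mul_add]
      congr 1
      omega
    have : t * q + t * A ≡ 1 + t * A [MOD t * A + 1] := by
      rw [e, add_comm 1 (t * A)]
      exact ((Nat.modEq_zero_iff_dvd).2 (Dvd.intro_left t rfl)).trans
        ((Nat.modEq_zero_iff_dvd).2 dvd_rfl).symm
    exact Nat.ModEq.add_right_cancel' (t * A) this
  have h3 : (∏ k ∈ range b, (t * (q + 1 + k))) ≡ ∏ k ∈ range b, (1 + (k + 1) * t)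
      [MOD t * A + 1] := by
    apply Nat.ModEq.prod
    intro k _
    have : t * (q + 1 + k) = t * q + (k + 1) * t := by ring
    rw [this]
    exact hqt.add_right _
  have h4 : ∏ k ∈ range b, (1 + (k + 1) * t) < t * A + 1 := by
    have : ∏ k ∈ range b, (1 + (k + 1) * t) ≤ A := by
      rw [hA]
      calc ∏ k ∈ range b, (1 + (k + 1) * t) ≤ ∏ k ∈ range b, (1 + b * t) := by
            apply Finset.prod_le_prod' 
            intro k hk
            have : k + 1 ≤ b := Finset.mem_range.1 hk
            gcongr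
        _ = (1 + b * t) ^ b := by simp
    omega
  rw [h1, h2, Nat.sub_eq_zero_of_le ht, add_zero, h3, Nat.mod_eq_of_lt h4]

section

variable {α : Type} {f g : (α → ℕ) → ℕ}

theorem choose_dioph (hf : DiophFn f) (hg : DiophFn g) :
    DiophFn fun v => (f v).choose (g v) := by
  have h2 : DiophFn fun v : α → ℕ => 2 ^ f v + 1 :=
    add_dioph (pow_dioph (const_dioph 2) hf) (const_dioph 1)
  have h := mod_dioph (div_dioph (pow_dioph (add_dioph h2 (const_dioph 1)) hf)
    (pow_dioph h2 hg)) h2
  have e : (fun v => (f v).choose (g v)) = fun v =>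
      ((2 ^ f v + 1 + Function.const (α → ℕ) 1 v) ^ f v / (2 ^ f v + 1) ^ g v) % (2 ^ f v + 1) :=
    funext fun v => (choose_eq (f v) (g v)).symm
  rw [e]
  exact h

theorem factorial_dioph (hf : DiophFn f) : DiophFn fun v => (f v).factorial := by
  have hr : DiophFn fun v : α → ℕ => 2 * (f v + 1) ^ (f v + 2) :=
    mul_dioph (const_dioph 2) (pow_dioph (add_dioph hf (const_dioph 1))
      (add_dioph hf (const_dioph 2)))
  have h := div_dioph (pow_dioph hr hf) (choose_dioph hr hf)
  have e : (fun v => (f v).factorial) = fun v =>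
      (2 * (f v + 1) ^ (f v + 2)) ^ f v / (2 * (f v + 1) ^ (f v + 2)).choose (f v) :=
    funext fun v => (factorial_eq (f v)).symm
  rw [e]
  exact h

theorem descFactorial_dioph (hf : DiophFn f) (hg : DiophFn g) :
    DiophFn fun v => (f v).descFactorial (g v) := by
  have e : (fun v => (f v).descFactorial (g v)) = fun v =>
      (g v).factorial * (f v).choose (g v) :=
    funext fun v => Nat.descFactorial_eq_factorial_mul_choose _ _
  rw [e]
  exact mul_dioph (factorial_dioph hg) (choose_dioph hf hg)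

theorem prod_dioph (hf : DiophFn f) (hg : DiophFn g) :
    DiophFn fun v => ∏ k ∈ Finset.range (f v), (1 + (k + 1) * g v) := by
  have hA : DiophFn fun v : α → ℕ => (1 + f v * g v) ^ f v :=
    pow_dioph (add_dioph (const_dioph 1) (mul_dioph hf hg)) hf
  have hM : DiophFn fun v : α → ℕ => g v * (1 + f v * g v) ^ f v + 1 :=
    add_dioph (mul_dioph hg hA) (const_dioph 1)
  have h := add_dioph (mod_dioph (mul_dioph (pow_dioph hg hf) (mul_dioph (factorial_dioph hf)
    (choose_dioph (add_dioph (sub_dioph hM hA) hf) hf))) hM) (sub_dioph (const_dioph 1) hg)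
  have e : (fun v => ∏ k ∈ Finset.range (f v), (1 + (k + 1) * g v)) = fun v =>
      (g v ^ f v * ((f v).factorial * ((g v * (1 + f v * g v) ^ f v + 1
        - (1 + f v * g v) ^ f v) + f v).choose (f v)))
        % (g v * (1 + f v * g v) ^ f v + 1) + (1 - g v) :=
    funext fun v => (prod_eq (f v) (g v)).symm
  rw [e]
  exact h

end

end Pool.Agent.H82.MRDP
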