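import Mathlib
import Pool.Agent.H82.MRDP.Fn
import Pool.Agent.H48.MRDP.Forall

/-!
# Primitive recursive functions and recursively enumerable sets are Diophantine
-/

namespace Pool.Agent.H82.MRDP

open Dioph


/-- The bounded quantifier theorem. -/
theorem forall_dioph {α : Type} {S : Set (Option α → ℕ)} (hS : Dioph S) {f : (α → ℕ) → ℕ}
    (hf : DiophFn f) : Dioph {v : α → ℕ | ∀ k < f v, Option.elim' k v ∈ S} :=
  H48.MRDP.forall_dioph_of (fun h => factorial_dioph h) (fun h h' => descFactorial_dioph h h')
    (fun h h' => prod_dioph h h') hS hf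

section

variable {α : Type}

theorem ex_of {P : (α → ℕ) → ℕ → Prop}
    (h : Dioph {w : Option α → ℕ | P (w ∘ some) (w none)}) : Dioph {v : α → ℕ | ∃ x, P v x} :=
  Dioph.ext (ex1_dioph h) fun _ => Iff.rfl

theorem all_of {P : (α → ℕ) → ℕ → Prop} {f : (α → ℕ) → ℕ} (hf : DiophFn f)
    (h : Dioph {w : Option α → ℕ | P (w ∘ some) (w none)}) :
    Dioph {v : α → ℕ | ∀ k < f v, P v k} :=
  Dioph.ext (forall_dioph h hf) fun _ => Iff.rfl

theorem some_dioph {f : (α → ℕ) → ℕ} (hf : DiophFn f) :
    DiophFn fun w : Option α → ℕ => f (w ∘ some) :=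
  reindex_diophFn some hf

theorem none_dioph : DiophFn fun w : Option α → ℕ => w none := proj_dioph none

theorem pair_dioph {f g : (α → ℕ) → ℕ} (hf : DiophFn f) (hg : DiophFn g) :
    DiophFn fun v => Nat.pair (f v) (g v) := by
  have hf' := some_dioph hf
  have hg' := some_dioph hg
  have h1 := (lt_dioph hf' hg').inter
    (eq_dioph (add_dioph (mul_dioph hg' hg') hf') (none_dioph (α := α)))
  have h2 := (le_dioph hg' hf').inter
    (eq_dioph (add_dioph (add_dioph (mul_dioph hf' hf') hf') hg') (none_dioph (α := α)))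
  refine Dioph.ext (h1.union h2) fun w => ?_
  simp only [Set.mem_union, Set.mem_inter_iff, Set.mem_ofPred_eq, Nat.pair]
  split_ifs with h
  · constructor
    · rintro (⟨_, h'⟩ | ⟨h', _⟩)
      · exact h'
      · omega
    · exact fun h' => Or.inl ⟨h, h'⟩
  · constructor
    · rintro (⟨h', _⟩ | ⟨_, h'⟩)
      · omega
      · exact h'
    · exact fun h' => Or.inr ⟨by omega, h'⟩

theorem left_dioph {f : (α → ℕ) → ℕ} (hf : DiophFn f) :
    DiophFn fun v => (Nat.unpair (f v)).1 := by
  refine Dioph.ext (S := {w : Option α → ℕ | ∃ y, Nat.pair (w none) y = f (w ∘ some)})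
    (ex_of (eq_dioph (pair_dioph (some_dioph none_dioph) none_dioph)
      (some_dioph (some_dioph hf)))) fun w => ?_
  constructor
  · rintro ⟨y, hy⟩
    show (Nat.unpair (f (w ∘ some))).1 = w none
    rw [← hy, Nat.unpair_pair]
  · intro h
    have h' : (Nat.unpair (f (w ∘ some))).1 = w none := h
    exact ⟨(Nat.unpair (f (w ∘ some))).2, by rw [← h', Nat.pair_unpair]⟩

theorem right_dioph {f : (α → ℕ) → ℕ} (hf : DiophFn f) :
    DiophFn fun v => (Nat.unpair (f v)).2 := by
  refine Dioph.ext (S := {w : Option α → ℕ | ∃ y, Nat.pair y (w none) = f (w ∘ some)})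
    (ex_of (eq_dioph (pair_dioph none_dioph (some_dioph none_dioph))
      (some_dioph (some_dioph hf)))) fun w => ?_
  constructor
  · rintro ⟨y, hy⟩
    show (Nat.unpair (f (w ∘ some))).2 = w none
    rw [← hy, Nat.unpair_pair]
  · intro h
    have h' : (Nat.unpair (f (w ∘ some))).2 = w none := h
    exact ⟨(Nat.unpair (f (w ∘ some))).1, by rw [← h', Nat.pair_unpair]⟩

theorem beta_dioph {f g : (α → ℕ) → ℕ} (hf : DiophFn f) (hg : DiophFn g) :
    DiophFn fun v => Nat.beta (f v) (g v) :=
  mod_dioph (left_dioph hf)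
    (add_dioph (mul_dioph (add_dioph hg (const_dioph 1)) (right_dioph hf)) (const_dioph 1))

end

/-- A function given by primitive recursion is coded by the `β`-function. -/
theorem rec_beta (a : ℕ) (g : ℕ → ℕ → ℕ) (m x : ℕ) :
    (∃ c, Nat.beta c 0 = a ∧ (∀ y < m, Nat.beta c (y + 1) = g y (Nat.beta c y)) ∧
      Nat.beta c m = x) ↔ (Nat.rec a g m : ℕ) = x := by
  constructor
  · rintro ⟨c, h0, hs, rfl⟩
    have key : ∀ y ≤ m, Nat.beta c y = (Nat.rec a g y : ℕ) := by
      intro y
      induction y with
      | zero => intro _; exact h0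
      | succ y ih =>
        intro hy
        rw [hs y (by omega), ih (by omega)]
    exact (key m le_rfl).symm
  · rintro rfl
    let r : ℕ → ℕ := fun i => (Nat.rec a g i : ℕ)
    let l : List ℕ := (List.range (m + 1)).map r
    have hl : l.length = m + 1 := by simp [l]
    have key : ∀ y ≤ m, Nat.beta (Nat.unbeta l) y = (Nat.rec a g y : ℕ) := by
      intro y hy
      have h1 := Nat.beta_unbeta_coe l ⟨y, by omega⟩
      have h2 : l[(⟨y, by omega⟩ : Fin l.length)] = r y := by
        simp only [Fin.getElem_fin, l, List.getElem_map, List.getElem_range]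
      exact h1.trans h2
    refine ⟨Nat.unbeta l, key 0 (by omega), fun y hy => ?_, key m le_rfl⟩
    rw [key (y + 1) (by omega), key y (by omega)]

/-- Primitive recursive functions are Diophantine. -/
theorem primrec_dioph {F : ℕ → ℕ} (hF : Nat.Primrec F) :
    ∀ {α : Type} {h : (α → ℕ) → ℕ}, DiophFn h → DiophFn fun v => F (h v) := by
  induction hF with
  | zero => intro α h _; exact const_dioph 0
  | succ => intro α h hh; exact add_dioph hh (const_dioph 1)
  | left => intro α h hh; exact left_dioph hh
  | right => intro α h hh; exact right_dioph hh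
  | pair _ _ ihf ihg => intro α h hh; exact pair_dioph (ihf hh) (ihg hh)
  | comp _ _ ihf ihg => intro α h hh; exact ihf (ihg hh)
  | @prec f g _ _ ihf ihg =>
    intro α h hh
    have hz := some_dioph (left_dioph hh)
    have hm := some_dioph (right_dioph hh)
    -- variables: `w : Option α → ℕ` (value), then the code `c`, then the index `y`
    have hc : DiophFn fun w : Option (Option α) → ℕ => w none := none_dioph
    have h0 := eq_dioph (beta_dioph hc (const_dioph 0)) (some_dioph (ihf hz))
    have h2 := eq_dioph (beta_dioph hc (some_dioph hm)) (some_dioph (none_dioph (α := α)))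
    have hy : DiophFn fun w : Option (Option (Option α)) → ℕ => w none := none_dioph
    have hc' := some_dioph hc
    have h1 := eq_dioph (beta_dioph hc' (add_dioph hy (const_dioph 1)))
      (ihg (pair_dioph (some_dioph (some_dioph hz)) (pair_dioph hy (beta_dioph hc' hy))))
    have h1' := all_of (some_dioph hm)
      (P := fun (w : Option (Option α) → ℕ) y =>
        Nat.beta (w none) (y + 1)
          = g (Nat.pair (Nat.unpair (h (w ∘ some ∘ some))).1 (Nat.pair y (Nat.beta (w none) y))))
      h1
    refine Dioph.ext (ex_of (P := fun (w : Option α → ℕ) c =>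
      Nat.beta c 0 = f (Nat.unpair (h (w ∘ some))).1 ∧
      (∀ y < (Nat.unpair (h (w ∘ some))).2, Nat.beta c (y + 1)
          = g (Nat.pair (Nat.unpair (h (w ∘ some))).1 (Nat.pair y (Nat.beta c y)))) ∧
      Nat.beta c (Nat.unpair (h (w ∘ some))).2 = w none) (h0.inter (h1'.inter h2))) fun w => ?_
    exact rec_beta (f (Nat.unpair (h (w ∘ some))).1)
      (fun y IH => g (Nat.pair (Nat.unpair (h (w ∘ some))).1 (Nat.pair y IH)))
      (Nat.unpair (h (w ∘ some))).2 (w none)

/-- **MRDP**: a recursively enumerable set is Diophantine. -/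
theorem rePred_dioph {p : ℕ → Prop} (hp : REPred p) {α : Type} {g : (α → ℕ) → ℕ}
    (hg : DiophFn g) : Dioph {v : α → ℕ | p (g v)} := by
  obtain ⟨F, hF, hpF⟩ : ∃ F : ℕ → ℕ, Nat.Primrec F ∧ ∀ n, p n ↔ ∃ k, F (Nat.pair k n) = 0 := by
    have h1 : Partrec fun n : ℕ => (Part.assert (p n) fun _ => Part.some ()).map fun _ => 0 := 
      Partrec.map hp (Computable.const 0).to₂
    obtain ⟨c, hc⟩ := Nat.Partrec.Code.exists_code.1 (Partrec.nat_iff.1 h1)
    refine ⟨fun a => (Nat.Partrec.Code.evaln a.unpair.1 c a.unpair.2).casesOn 1 fun _ => 0,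
      ?_, ?_⟩
    · rw [← Primrec.nat_iff]
      refine Primrec.option_casesOn (Nat.Partrec.Code.primrec_evaln.comp
        (Primrec.pair (Primrec.pair (Primrec.fst.comp Primrec.unpair) (Primrec.const c))
          (Primrec.snd.comp Primrec.unpair))) (Primrec.const 1) (Primrec.const 0).to₂
    · intro n
      have h2 : p n ↔ (Nat.Partrec.Code.eval c n).Dom := by
        rw [hc]
        simp [Part.assert]
      rw [h2, Part.dom_iff_mem]
      constructor
      · rintro ⟨y, hy⟩
        obtain ⟨k, hk⟩ := Nat.Partrec.Code.evaln_complete.1 hy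
        refine ⟨k, ?_⟩
        have hk' : Nat.Partrec.Code.evaln k c n = some y := hk
        simp only [Nat.unpair_pair, hk']
      · rintro ⟨k, hk⟩
        rcases hE : Nat.Partrec.Code.evaln k c n with _ | y
        · simp [hE] at hk
        · exact ⟨y, Nat.Partrec.Code.evaln_complete.2 ⟨k, hE⟩⟩
  refine Dioph.ext (ex_of (P := fun (v : α → ℕ) k => F (Nat.pair k (g v)) = 0)
    (eq_dioph (primrec_dioph hF (pair_dioph none_dioph (some_dioph hg))) (const_dioph 0)))
    fun v => ?_
  exact (hpF (g v)).symm

/-- There is a Diophantine set of numbers which is not computable. -/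
theorem exists_dioph_not_computable :
    ∃ S : Set ℕ, (¬ ComputablePred fun n => n ∈ S) ∧ Dioph {v : Unit → ℕ | v () ∈ S} := by
  have hre : REPred fun n : ℕ => (Nat.Partrec.Code.eval (Denumerable.ofNat Nat.Partrec.Code n) 0).Dom :=
    (ComputablePred.halting_problem_re 0).comp (Computable.ofNat _)
  refine ⟨{n | (Nat.Partrec.Code.eval (Denumerable.ofNat Nat.Partrec.Code n) 0).Dom}, ?_,
    rePred_dioph hre (proj_dioph ())⟩
  intro hcomp
  apply ComputablePred.halting_problem 0
  obtain ⟨f, hf, hfe⟩ := ComputablePred.computable_iff.1 hcomp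
  refine ComputablePred.computable_iff.2 ⟨fun c => f (Encodable.encode c),
    hf.comp Computable.encode, ?_⟩
  funext c
  have h := congrFun hfe (Encodable.encode c)
  simpa using h

end Pool.Agent.H82.MRDP
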